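import Pool.Agent.Helper55.TM.Local3

/-! # MP_fc8395_an, own statement beside S06811: tools -/

set_option autoImplicit false

open scoped ContDiff Topology
open Set

namespace Pool.Agent.Helper78.OWN

/-- A function on an interval which is locally constant is constant. -/
theorem locconst {f : ℝ → ℝ} {a b : ℝ}
    (h : ∀ x ∈ Ioo a b, ∀ᶠ y in 𝓝 x, f y = f x) {x y : ℝ} (hx : x ∈ Ioo a b) (hy : y ∈ Ioo a b) :
    f x = f y := by
  have hd : ∀ x ∈ Ioo a b, HasDerivAt f 0 x := by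
    intro x hx
    exact (hasDerivAt_const x (f x)).congr_of_eventuallyEq (h x hx)
  exact isOpen_Ioo.is_const_of_deriv_eq_zero isPreconnected_Ioo
    (fun x hx => (hd x hx).differentiableAt.differentiableWithinAt)
    (fun x hx => (hd x hx).deriv) hx hy

/-- From the pointwise compatibility of the plaques to the local form of the changes of charts. -/
theorem change_form {S : Set (ℝ × ℝ × ℝ)} {φ ψ : ℝ × ℝ → ℝ × ℝ × ℝ}
    (hφS : ∀ z, φ z ∈ S) (hφ : Continuous φ) (hψi : Function.Injective ψ)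
    (hψo : ∃ O' : Set (ℝ × ℝ × ℝ), IsOpen O' ∧ O' ∩ S = ψ '' univ)
    (hcomp : ∀ z w : ℝ × ℝ, φ z = ψ w → ∃ ε > 0, ∀ z' w' : ℝ × ℝ, dist z' z < ε →
      z'.2 = z.2 → ψ w' = φ z' → w'.2 = w.2) {z w : ℝ × ℝ} (hzw : φ z = ψ w) :
    ∃ ε > 0, ∃ g : ℝ → ℝ, ∀ z' w' : ℝ × ℝ, dist z' z < ε → φ z' = ψ w' → w'.2 = g z'.2 := by
  obtain ⟨O', hO', hO⟩ := hψo
  have hz : φ z ∈ O' := by
    have : φ z ∈ O' ∩ S := by rw [hO, hzw]; exact ⟨w, mem_univ _, rfl⟩
    exact this.1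
  obtain ⟨ε, hε, hb⟩ := Metric.isOpen_iff.1 (hO'.preimage hφ) z hz
  have hex : ∀ z' : ℝ × ℝ, dist z' z < ε → ∃ w', ψ w' = φ z' := by
    intro z' h
    have h1 : φ z' ∈ O' ∩ S := ⟨hb (Metric.mem_ball.2 h), hφS z'⟩
    rw [hO] at h1
    obtain ⟨w', -, h2⟩ := h1
    exact ⟨w', h2⟩
  choose! θ hθ using hex
  refine ⟨ε, hε, fun t => (θ (z.1, t)).2, fun z' w' hz' hw' => ?_⟩
  have hw : w' = θ z' := hψi (by rw [hθ z' hz', hw'])
  rw [hw]
  have ht : |z'.2 - z.2| < ε := by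
    have := le_trans (le_max_right _ _) (le_of_eq (Prod.dist_eq (x := z') (y := z)).symm)
    rw [Real.dist_eq] at this
    linarith
  have hs : |z'.1 - z.1| < ε := by
    have := le_trans (le_max_left _ _) (le_of_eq (Prod.dist_eq (x := z') (y := z)).symm)
    rw [Real.dist_eq] at this
    linarith
  have hin : ∀ s ∈ Ioo (z.1 - ε) (z.1 + ε), dist ((s, z'.2) : ℝ × ℝ) z < ε := by
    intro s hs
    rw [Prod.dist_eq, max_lt_iff, Real.dist_eq, Real.dist_eq, abs_lt]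
    exact ⟨⟨by linarith [hs.1], by linarith [hs.2]⟩, ht⟩
  have hloc : ∀ x ∈ Ioo (z.1 - ε) (z.1 + ε), ∀ᶠ y in 𝓝 x,
      (θ (y, z'.2)).2 = (θ (x, z'.2)).2 := by
    intro x hx
    obtain ⟨δ, hδ, h⟩ := hcomp (x, z'.2) (θ (x, z'.2)) (hθ _ (hin x hx)).symm
    filter_upwards [isOpen_Ioo.mem_nhds hx, Metric.ball_mem_nhds x hδ] with y hy hy2
    refine h (y, z'.2) (θ (y, z'.2)) ?_ rfl (hθ _ (hin y hy))
    rw [Prod.dist_eq, dist_self, max_lt_iff]
    exact ⟨hy2, hδ⟩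
  have hx : z'.1 ∈ Ioo (z.1 - ε) (z.1 + ε) := by
    have := abs_lt.1 hs
    exact ⟨by linarith [this.1], by linarith [this.2]⟩
  have hy : z.1 ∈ Ioo (z.1 - ε) (z.1 + ε) := ⟨by linarith, by linarith⟩
  exact locconst (f := fun s => (θ (s, z'.2)).2) hloc hx hy

end Pool.Agent.Helper78.OWN
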